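import Pool.Agent.H565.Pm.Basic

set_option autoImplicit false

/-!
# Rotation: from a real nonnegative distinguished zero to a general one
-/

open Polynomial

namespace Pool.Agent.W470.Sen

open Pool.Agent.H565.Pm

/-- Rotation of the data: `lam` arbitrary, `a = |lam i|`; the critical points of `∏ (X - lam j)` are
`c w_k`, `|c| = 1`, `lam i = c a`, where `w_k` are the critical points of
`(X - a) ∏ (X - c⁻¹ lam_j)`. -/
lemma rotate_data {m : ℕ} (lam : Fin (m + 1) → ℂ) (hl : ∀ i, ‖lam i‖ ≤ 1) (i : Fin (m + 1)) :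
    ∃ (c : ℂ) (z w : Fin m → ℂ), ‖c‖ = 1 ∧ lam i = c * ((‖lam i‖ : ℝ) : ℂ) ∧
      (∀ j, ‖z j‖ ≤ 1) ∧
      (derivative (P ‖lam i‖ z)).roots = Multiset.map w Finset.univ.val ∧
      (derivative (∏ j, (X - C (lam j)))).roots =
        Multiset.map (fun k => c * w k) Finset.univ.val := by
  obtain ⟨c, hc1, hca⟩ : ∃ c : ℂ, ‖c‖ = 1 ∧ lam i = c * ((‖lam i‖ : ℝ) : ℂ) := by
    by_cases h0 : lam i = 0
    · exact ⟨1, norm_one, by rw [h0]; simp⟩
    · have hn : ‖lam i‖ ≠ 0 := norm_ne_zero_iff.mpr h0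
      refine ⟨lam i / ((‖lam i‖ : ℝ) : ℂ), ?_, ?_⟩
      · rw [norm_div, Complex.norm_real, norm_norm, div_self hn]
      · rw [div_mul_cancel₀]; exact_mod_cast hn
  have hc0 : c ≠ 0 := by
    intro h; rw [h, norm_zero] at hc1; norm_num at hc1
  set z : Fin m → ℂ := fun j => c⁻¹ * lam (i.succAbove j) with hz
  obtain ⟨w, hr, hw⟩ := exists_w ‖lam i‖ z
  refine ⟨c, z, w, hc1, hca, ?_, hr, ?_⟩
  · intro j
    rw [hz, norm_mul, norm_inv, hc1, inv_one, one_mul]
    exact hl _
  · set p : ℂ[X] := ∏ j, (X - C (lam j)) with hp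
    have hcomp : p.comp (C c * X) = C (c ^ (m + 1)) * P ‖lam i‖ z := by
      have e1 : ∀ x : ℂ, (X - C x).comp (C c * X) = C c * (X - C (c⁻¹ * x)) := by
        intro x
        rw [sub_comp, X_comp, C_comp, mul_sub, ← C_mul, mul_inv_cancel_left₀ hc0]
      rw [hp, Fin.prod_univ_succAbove _ i, mul_comp, prod_comp, e1]
      simp only [e1]
      have e2 : c⁻¹ * lam i = ((‖lam i‖ : ℝ) : ℂ) := by
        conv_lhs => rw [hca]
        rw [inv_mul_cancel_left₀ hc0]
      have e4 : (C (c ^ (m + 1)) : ℂ[X]) = C c * C c ^ m := by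
        rw [pow_succ, C_mul, C_pow]; ring
      rw [Finset.prod_mul_distrib, Finset.prod_const, Finset.card_univ, Fintype.card_fin,
        P, e4, e2]
      ring
    have hder : C c * (derivative p).comp (C c * X) =
        C (c ^ (m + 1)) * derivative (P ‖lam i‖ z) := by
      have := congrArg derivative hcomp
      rw [derivative_comp, derivative_C_mul, derivative_X, mul_one, derivative_C_mul] at this
      exact this
    have hfac : derivative p = C (m + 1 : ℂ) * ∏ k, (X - C (c * w k)) := by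
      refine Polynomial.funext fun x => ?_
      have hev := congrArg (eval (c⁻¹ * x)) hder
      rw [eval_mul, eval_C, eval_comp, eval_mul, eval_C, eval_X, eval_mul, eval_C,
        mul_inv_cancel_left₀ hc0, hw] at hev
      rw [eval_mul, eval_C, eval_prod]
      simp only [eval_sub, eval_X, eval_C]
      have e3 : ∏ k, (x - c * w k) = c ^ m * ∏ k, (c⁻¹ * x - w k) := by
        have : c ^ m = ∏ _k : Fin m, c := by simp
        rw [this, ← Finset.prod_mul_distrib]
        refine Finset.prod_congr rfl fun k _ => ?_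
        rw [mul_sub, mul_inv_cancel_left₀ hc0]
      rw [e3]
      apply mul_left_cancel₀ hc0
      rw [hev]
      ring
    have hm1 : (m + 1 : ℂ) ≠ 0 := by exact_mod_cast Nat.succ_ne_zero m
    rw [hfac, roots_C_mul _ hm1,
      roots_prod _ _ (Finset.prod_ne_zero_iff.2 fun j _ => X_sub_C_ne_zero _)]
    simp only [roots_X_sub_C]
    exact Multiset.bind_singleton _ _

end Pool.Agent.W470.Sen
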