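import Mathlib

set_option autoImplicit false

/-!
# The power mean `M_{-2}` conjecture (MP_f0bc87_an): statements of the five independent pieces

`m` = number of critical points (degree `m+1`), `0 < a < 1` the zero, `u_k = 1/(a - w_k)`,
`σ = Re (mean u)`, `D = 2 a σ - a²`, `g(t) = 1 - D t - a² t (1 - t) = 1 - 2 a σ t + a² t²`.
-/

open MeasureTheory

namespace Pool.Agent.W470.Sen

/-- `g(t) = 1 - D t - a² t (1 - t)` -/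
noncomputable def g (a D t : ℝ) : ℝ := 1 - D * t - a ^ 2 * t * (1 - t)

/-- the explicit lower bound for `D`, with `ε = 1 - a`:
`D1 = 3 (6 + (2m+3) ε) / ((3 + m ε)² (2 - ε))` -/
noncomputable def D1 (m : ℕ) (a : ℝ) : ℝ :=
  3 * (6 + (2 * m + 3) * (1 - a)) / ((3 + m * (1 - a)) ^ 2 * (1 + a))

/-- (SEN-VAR) sharp variance estimate -/
def StVar : Prop :=
  ∀ (m : ℕ), 2 ≤ m → ∀ w : Fin m → ℂ,
    ‖∑ k, (w k - (∑ j, w j) / m) * ∏ j ∈ Finset.univ.erase k, w j‖ ≤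
      Real.sqrt (Real.exp 1) * m *
        ((∑ j, ‖w j‖ ^ 2) / m - ‖(∑ j, w j) / m‖ ^ 2) *
        (Real.sqrt ((∑ j, ‖w j‖ ^ 2) / m)) ^ (m - 2)

/-- (SEN-CONJ) the conjugate point lemma -/
def StConj : Prop :=
  ∀ (n : ℕ), 2 ≤ n → ∀ ε x : ℝ, 0 < ε → ε ≤ 1 → 0 < x →
    (1 - ε) ^ n + n * ε ≤ (1 + x) ^ n - n * x →
    3 * ε ≤ x * (3 + (n - 1) * ε)

/-- (SEN-SMALL) the final inequality for `5 ≤ m ≤ 79` -/
def StSmall : Prop :=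
  ∀ (m : ℕ), 5 ≤ m → m ≤ 79 → ∀ a D Φ : ℝ, 0 < a → a < 1 → D1 m a ≤ D → D ≤ 1 →
    0 ≤ Φ → Φ ≤ 2 * (1 - Real.sqrt (1 - a ^ 2)) →
    Φ * (2 - a ^ 2 - D) ≤ 2 * a * (2 * a - a ^ 2 - D) →
    Real.sqrt (Real.exp 1) * Φ *
        (4 / ((m + 2) * (D + 2 / 5 * a ^ 2) ^ 2)
          + 8 / 25 * m * (Real.sqrt (max (1 - 3 / 5 * (D + 2 / 5 * a ^ 2)) (1 - D))) ^ (m - 2))
      + (Real.sqrt (1 - D)) ^ (m + 1) / (1 - a) < 1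

/-- (SEN-LARGE) the final inequality for `m ≥ 80` -/
def StLarge : Prop :=
  ∀ (m : ℕ), 80 ≤ m → ∀ a D Φ : ℝ, 0 < a → a < 1 → D1 m a ≤ D → D ≤ a * (2 - a) →
    (m + 1) * (1 - a) ≤ Real.exp ((m + 1) * (1 - a ^ 2) * D / 2) →
    0 ≤ Φ → Φ ≤ 2 * (1 - Real.sqrt (1 - a ^ 2)) →
    Real.sqrt (Real.exp 1) * Φ *
        (m * ∫ t in (0:ℝ)..1, t * (Real.sqrt (g a D t)) ^ (m - 2))
      + (Real.sqrt (1 - D)) ^ (m + 1) / (1 - a) < 1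

/-- (SEN-J) the integral bound used for `m ≤ 79` -/
def StJ : Prop :=
  ∀ (m : ℕ), 3 ≤ m → ∀ a D : ℝ, 0 < a → a < 1 → 0 < D → D ≤ a * (2 - a) →
    ∫ t in (0:ℝ)..1, t * (Real.sqrt (g a D t)) ^ (m - 2) ≤
      4 / (m * (m + 2) * (D + 2 / 5 * a ^ 2) ^ 2)
        + 8 / 25 * (Real.sqrt (max (1 - 3 / 5 * (D + 2 / 5 * a ^ 2)) (1 - D))) ^ (m - 2)

end Pool.Agent.W470.Sen
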