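import Pool.Agent.W470.Sen.Main
import Pool.Agent.W470.Sen.Rotate
import Pool.Agent.W22.Sen.Var
import Pool.Agent.W762.Sen.Conj
import Pool.Agent.W22.Sen.Large
import Pool.Agent.W64.Sen.Small

set_option autoImplicit false

open Polynomial

namespace Pool.Agent.W470.Sen

open Pool.Agent.H565.Pm




/-- the M_{-2} inequality in every degree (strict for `a < 1`) -/
theorem all_degrees' :
    ∀ (m : ℕ), 1 ≤ m → ∀ (a : ℝ), 0 ≤ a → a ≤ 1 → ∀ z : Fin m → ℂ, (∀ j, ‖z j‖ ≤ 1) →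
      ((a : ℂ) ∈ (derivative ((X - C (a : ℂ)) * ∏ j, (X - C (z j)))).roots) ∨
      ((m : ℝ) ≤ (((derivative ((X - C (a : ℂ)) * ∏ j, (X - C (z j)))).roots).map
          (fun w : ℂ => (‖w - (a : ℂ)‖ ^ 2)⁻¹)).sum ∧
       (a < 1 → (m : ℝ) < (((derivative ((X - C (a : ℂ)) * ∏ j, (X - C (z j)))).roots).map
          (fun w : ℂ => (‖w - (a : ℂ)‖ ^ 2)⁻¹)).sum)) :=
  all_degrees Pool.Agent.W22.SenVar.main Pool.Agent.W762.Sen.Conj.main
    Pool.Agent.W64.Sen.main Pool.Agent.W22.SenLarge.main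

theorem general {m : ℕ} (hm : 1 ≤ m) (lam : Fin (m + 1) → ℂ) (hl : ∀ i, ‖lam i‖ ≤ 1)
    (i : Fin (m + 1)) :
    lam i ∈ (derivative (∏ j, (X - C (lam j)))).roots ∨
      ((m : ℝ) ≤ (((derivative (∏ j, (X - C (lam j)))).roots).map
          (fun w : ℂ => (‖w - lam i‖ ^ 2)⁻¹)).sum ∧
       (‖lam i‖ < 1 → (m : ℝ) < (((derivative (∏ j, (X - C (lam j)))).roots).map
          (fun w : ℂ => (‖w - lam i‖ ^ 2)⁻¹)).sum)) := by
  obtain ⟨c, z, w, hc1, hca, hz, hr, hr'⟩ := rotate_data lam hl i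
  have h := all_degrees' m hm
    ‖lam i‖ (norm_nonneg _) (hl i) z hz
  unfold P at hr
  rw [hr] at h
  rw [hr']
  have hn : ∀ k, ‖c * w k - lam i‖ = ‖w k - ((‖lam i‖ : ℝ) : ℂ)‖ := by
    intro k
    conv_lhs => rw [hca]
    rw [← mul_sub, norm_mul, hc1, one_mul]
  rcases h with h | h
  · left
    obtain ⟨k, hk, hk2⟩ := Multiset.mem_map.1 h
    refine Multiset.mem_map.2 ⟨k, hk, ?_⟩
    rw [hk2]; exact hca.symm
  · right
    simp only [Multiset.map_map, Function.comp_def] at h ⊢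
    simp only [hn]
    exact h


/-- Sendov's conjecture, in every degree -/
theorem sendov (n : ℕ) (hn : 2 ≤ n) (lam : Fin n → ℂ) (hl : ∀ i, ‖lam i‖ ≤ 1) (i : Fin n) :
    ∃ μ ∈ (derivative (∏ j, (X - C (lam j)))).roots, ‖lam i - μ‖ ≤ 1 ∧
      (‖lam i‖ < 1 → ‖lam i - μ‖ < 1) := by
  obtain ⟨m, rfl⟩ : ∃ m, n = m + 1 := ⟨n - 1, by omega⟩
  have hm : 1 ≤ m := by omega
  obtain ⟨c, z, w, hc1, hca, hz, hr, hr'⟩ := rotate_data lam hl i
  rcases general hm lam hl i with h | h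
  · exact ⟨lam i, h, by simp, fun _ => by simp⟩
  rw [hr'] at h ⊢
  simp only [Multiset.map_map, Function.comp_def] at h
  change (m : ℝ) ≤ ∑ k, (‖c * w k - lam i‖ ^ 2)⁻¹ ∧ (_ → (m : ℝ) < ∑ k, (‖c * w k - lam i‖ ^ 2)⁻¹)
    at h
  have hcard : ∑ _k : Fin m, (1 : ℝ) = m := by simp
  rcases (hl i).lt_or_eq with hlt | heq
  · have h2 := h.2 hlt
    obtain ⟨k, hk⟩ : ∃ k, ‖c * w k - lam i‖ < 1 := by
      by_contra hcon
      push Not at hcon
      have : ∑ k, (‖c * w k - lam i‖ ^ 2)⁻¹ ≤ ∑ _k : Fin m, (1 : ℝ) :=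
        Finset.sum_le_sum fun k _ => inv_le_one_of_one_le₀ (one_le_pow₀ (hcon k))
      rw [hcard] at this
      linarith
    refine ⟨c * w k, Multiset.mem_map.2 ⟨k, Finset.mem_univ k, rfl⟩, ?_⟩
    rw [norm_sub_rev]
    exact ⟨hk.le, fun _ => hk⟩
  · obtain ⟨k, hk⟩ : ∃ k, ‖c * w k - lam i‖ ≤ 1 := by
      by_contra hcon
      push Not at hcon
      have hne : (Finset.univ : Finset (Fin m)).Nonempty := ⟨⟨0, by omega⟩, Finset.mem_univ _⟩
      have : ∑ k, (‖c * w k - lam i‖ ^ 2)⁻¹ < ∑ _k : Fin m, (1 : ℝ) :=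
        Finset.sum_lt_sum_of_nonempty hne fun k _ =>
          inv_lt_one_of_one_lt₀ (one_lt_pow₀ (hcon k) (by norm_num))
      rw [hcard] at this
      linarith [h.1]
    refine ⟨c * w k, Multiset.mem_map.2 ⟨k, Finset.mem_univ k, rfl⟩, ?_⟩
    rw [norm_sub_rev]
    exact ⟨hk, fun h1 => absurd heq h1.ne⟩

end Pool.Agent.W470.Sen
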