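import Pool.Agent.H565.Pm.Main
import Pool.Agent.W470.Sen.Defs

set_option autoImplicit false

/-!
# Polynomial part, preliminaries

`u k = 1/(a - w k)`; the AM-GM bound, the star test and the centre test.
-/

open Polynomial MeasureTheory

namespace Pool.Agent.W470.Sen

open Pool.Agent.H565.Pm

/-- AM-GM for norms -/
lemma prod_norm_le {m : ℕ} (hm : 0 < m) (v : Fin m → ℂ) :
    ∏ k, ‖v k‖ ≤ (Real.sqrt ((∑ k, ‖v k‖ ^ 2) / m)) ^ m := by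
  have h1 := prod_le_mean hm (fun k => ‖v k‖ ^ 2) (fun k => sq_nonneg _)
  have h2 : ∏ k, ‖v k‖ = Real.sqrt (∏ k, ‖v k‖ ^ 2) := by
    rw [Finset.prod_pow, Real.sqrt_sq (Finset.prod_nonneg fun _ _ => norm_nonneg _)]
  have hnn : 0 ≤ (∑ k, ‖v k‖ ^ 2) / (m : ℝ) :=
    div_nonneg (Finset.sum_nonneg fun _ _ => sq_nonneg _) (Nat.cast_nonneg _)
  rw [h2]
  refine (Real.sqrt_le_sqrt h1).trans (le_of_eq ?_)
  rw [Real.sqrt_eq_rpow, Real.sqrt_eq_rpow, ← Real.rpow_natCast, ← Real.rpow_natCast,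
    ← Real.rpow_mul hnn, ← Real.rpow_mul hnn, mul_comm]

/-- mean of `‖c + d u_k‖²` for real `c, d` -/
lemma mean_sq {m : ℕ} (hm : 0 < m) (u : Fin m → ℂ) (c d : ℝ) :
    (∑ k, ‖(c : ℂ) + d * u k‖ ^ 2) / m =
      c ^ 2 + 2 * c * d * ((∑ k, u k) / m).re + d ^ 2 * ((∑ k, ‖u k‖ ^ 2) / m) := by
  have hm' : (m : ℝ) ≠ 0 := by exact_mod_cast hm.ne'
  have h1 : ∀ k, ‖(c : ℂ) + d * u k‖ ^ 2 = c ^ 2 + 2 * c * d * (u k).re + d ^ 2 * ‖u k‖ ^ 2 := by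
    intro k
    rw [Complex.sq_norm, Complex.normSq_apply, Complex.sq_norm, Complex.normSq_apply]
    simp
    ring
  simp_rw [h1]
  rw [Finset.sum_add_distrib, Finset.sum_add_distrib, ← Finset.mul_sum, ← Finset.mul_sum]
  have h2 : ((∑ k, u k) / (m : ℂ)).re = (∑ k, (u k).re) / m := by
    rw [show (∑ k, u k) / (m : ℂ) = (∑ k, u k) / ((m : ℝ) : ℂ) by simp, Complex.div_ofReal_re,
      Complex.re_sum]
  rw [h2]
  simp only [Finset.sum_const, Finset.card_univ, Fintype.card_fin, nsmul_eq_mul]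
  field_simp

/-- star test -/
lemma star {m : ℕ} (hm : 0 < m) {a : ℝ} (ha0 : 0 ≤ a) (ha1 : a < 1) (z w : Fin m → ℂ)
    (hz : ∀ j, ‖z j‖ ≤ 1)
    (hw : ∀ x : ℂ, (derivative (P a z)).eval x = (m + 1 : ℂ) * ∏ k, (x - w k))
    (hne : ∀ k, w k ≠ a) (u : Fin m → ℂ) (hu : ∀ k, u k = ((a : ℂ) - w k)⁻¹)
    (hU : (∑ k, ‖u k‖ ^ 2) / m ≤ 1) :
    1 ≤ ∫ t in (0:ℝ)..1, (Real.sqrt (a ^ 2 + 2 * a * (1 - a ^ 2) * ((∑ k, u k) / m).re * t
      + (1 - a ^ 2) ^ 2 * t ^ 2)) ^ m := by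
  have hm' : (0 : ℝ) < m := by exact_mod_cast hm
  have hK : 0 ≤ 1 - a ^ 2 := by nlinarith
  have hD : 0 < ∏ k, ‖(a : ℂ) - w k‖ :=
    Finset.prod_pos fun k _ => norm_pos_iff.2 (sub_ne_zero.2 (hne k).symm)
  have hm1 : ‖(m + 1 : ℂ)‖ = (m + 1 : ℝ) := by
    have : (m + 1 : ℂ) = ((m + 1 : ℝ) : ℂ) := by push_cast; rfl
    rw [this, Complex.norm_real, Real.norm_eq_abs, abs_of_pos (by positivity)]
  have e1 : (m + 1 : ℝ) * ∏ k, ‖(a : ℂ) - w k‖ = ∏ j, ‖(a : ℂ) - z j‖ := by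
    rw [← norm_prod Finset.univ (fun j => (a : ℂ) - z j), ← dP_at, hw, norm_mul, norm_prod, hm1]
  have e2 : ∏ j, ‖(a : ℂ) - z j‖ ≤ ∏ j, ‖1 - (a : ℂ) * z j‖ :=
    Finset.prod_le_prod (fun _ _ => norm_nonneg _) fun j _ => norm_cmp ha0 ha1.le (hz j)
  have e3 : ∏ j, ‖1 - (a : ℂ) * z j‖ ≤ (m + 1 : ℝ) * (∏ k, ‖(a : ℂ) - w k‖) *
      ∫ t in (0:ℝ)..1, (Real.sqrt (a ^ 2 + 2 * a * (1 - a ^ 2) * ((∑ k, u k) / m).re * t
      + (1 - a ^ 2) ^ 2 * t ^ 2)) ^ m := by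
    rw [← norm_prod, ident ha0 z w hw ha1, norm_mul, hm1, mul_assoc]
    refine mul_le_mul_of_nonneg_left ?_ (by positivity)
    refine (intervalIntegral.norm_integral_le_integral_norm zero_le_one).trans ?_
    rw [← intervalIntegral.integral_const_mul]
    refine intervalIntegral.integral_mono_on zero_le_one ?_ ?_ ?_
    · apply Continuous.intervalIntegrable
      fun_prop
    · apply Continuous.intervalIntegrable
      fun_prop
    · intro t ht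
      have h3 : ∏ k, ((a : ℂ) * (a - w k) + t * (1 - a ^ 2)) =
          (∏ k, ((a : ℂ) - w k)) * ∏ k, ((a : ℂ) + ((t * (1 - a ^ 2) : ℝ) : ℂ) * u k) := by
        rw [← Finset.prod_mul_distrib]
        refine Finset.prod_congr rfl fun k _ => ?_
        have : (a : ℂ) - w k ≠ 0 := sub_ne_zero.2 (hne k).symm
        rw [hu k]
        push_cast
        field_simp
      rw [h3, norm_mul, norm_prod]
      refine mul_le_mul_of_nonneg_left ?_ hD.le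
      rw [norm_prod]
      refine (prod_norm_le hm _).trans ?_
      refine pow_le_pow_left₀ (Real.sqrt_nonneg _) (Real.sqrt_le_sqrt ?_) m
      rw [mean_sq hm]
      have h4 : (t * (1 - a ^ 2)) ^ 2 * ((∑ k, ‖u k‖ ^ 2) / m) ≤ (t * (1 - a ^ 2)) ^ 2 :=
        mul_le_of_le_one_right (sq_nonneg _) hU
      nlinarith [h4]
  have h5 : (m + 1 : ℝ) * (∏ k, ‖(a : ℂ) - w k‖) ≤ (m + 1 : ℝ) * (∏ k, ‖(a : ℂ) - w k‖) *
      ∫ t in (0:ℝ)..1, (Real.sqrt (a ^ 2 + 2 * a * (1 - a ^ 2) * ((∑ k, u k) / m).re * t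
      + (1 - a ^ 2) ^ 2 * t ^ 2)) ^ m := by
    rw [e1] at *
    exact e2.trans e3
  by_contra hc
  rw [not_le] at hc
  have : 0 < (m + 1 : ℝ) * (∏ k, ‖(a : ℂ) - w k‖) := by positivity
  nlinarith

end Pool.Agent.W470.Sen
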