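import Pool.Agent.W470.Sen.Basic

set_option autoImplicit false

/-!
# The centre test and the variance identity
-/

open Polynomial MeasureTheory

namespace Pool.Agent.W470.Sen

open Pool.Agent.H565.Pm

/-- centre test: `|(m+1) ∫₀¹ ∏ (1 - a t u_k) dt| ≤ ∏ |u_k|` -/
lemma centre {m : ℕ} {a : ℝ} (ha0 : 0 < a) (z w : Fin m → ℂ)
    (hz : ∀ j, ‖z j‖ ≤ 1)
    (hw : ∀ x : ℂ, (derivative (P a z)).eval x = (m + 1 : ℂ) * ∏ k, (x - w k))
    (hne : ∀ k, w k ≠ a) (u : Fin m → ℂ) (hu : ∀ k, u k = ((a : ℂ) - w k)⁻¹) :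
    ‖(m + 1 : ℂ) * ∫ t in (0:ℝ)..1, ∏ k, (1 - (a : ℂ) * t * u k)‖ ≤ ∏ k, ‖u k‖ := by
  have hac : (a : ℂ) ≠ 0 := by exact_mod_cast ha0.ne'
  have hd : ∀ t ∈ Set.uIcc (0:ℝ) 1, HasDerivAt (fun t : ℝ => (P a z).eval (a + t * (-a : ℂ)))
      ((-a : ℂ) * (derivative (P a z)).eval (a + t * (-a : ℂ))) t := by
    intro t _
    have h1 : HasDerivAt (fun s : ℂ => (P a z).eval (a + s * (-a : ℂ)))
        ((derivative (P a z)).eval (a + (t:ℂ) * (-a : ℂ)) * (-a : ℂ)) (t : ℂ) := by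
      have h2 : HasDerivAt (fun s : ℂ => (a : ℂ) + s * (-a : ℂ)) (-a : ℂ) (t : ℂ) := by
        simpa using ((hasDerivAt_id (t : ℂ)).mul_const (-a : ℂ)).const_add (a : ℂ)
      exact ((P a z).hasDerivAt _).comp (t : ℂ) h2
    have h3 := h1.comp_ofReal
    rw [mul_comm (-a : ℂ)]
    exact h3
  have hint : IntervalIntegrable
      (fun t : ℝ => (-a : ℂ) * (derivative (P a z)).eval (a + t * (-a : ℂ))) volume 0 1 := by
    apply Continuous.intervalIntegrable
    exact continuous_const.mul ((derivative (P a z)).continuous.comp (by fun_prop))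
  have hF := intervalIntegral.integral_eq_sub_of_hasDerivAt hd hint
  simp only [Complex.ofReal_one, one_mul, Complex.ofReal_zero, zero_mul, add_zero] at hF
  have e1 : (a : ℂ) + (-a : ℂ) = 0 := by ring
  have e2 : (P a z).eval (a : ℂ) = 0 := by unfold P; simp
  have e3 : (P a z).eval 0 = (-a : ℂ) * ∏ j, (- z j) := by
    unfold P; simp [eval_prod]
  rw [e1, e2, e3, sub_zero, intervalIntegral.integral_const_mul] at hF
  have hF' := mul_left_cancel₀ (neg_ne_zero.2 hac) hF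
  have hL : ∀ k, (a : ℂ) - w k ≠ 0 := fun k => sub_ne_zero.2 (hne k).symm
  have e4 : ∫ t in (0:ℝ)..1, (derivative (P a z)).eval ((a : ℂ) + t * (-a : ℂ)) =
      (∏ k, ((a : ℂ) - w k)) *
        ((m + 1 : ℂ) * ∫ t in (0:ℝ)..1, ∏ k, (1 - (a : ℂ) * t * u k)) := by
    rw [← intervalIntegral.integral_const_mul, ← intervalIntegral.integral_const_mul]
    apply intervalIntegral.integral_congr
    intro t _
    simp only []
    rw [hw, mul_left_comm]
    congr 1
    rw [← Finset.prod_mul_distrib]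
    refine Finset.prod_congr rfl fun k _ => ?_
    rw [hu k]
    have := hL k
    field_simp
    ring
  rw [e4] at hF'
  have e5 : ‖∏ k, ((a : ℂ) - w k)‖ * ‖(m + 1 : ℂ) * ∫ t in (0:ℝ)..1, ∏ k, (1 - (a : ℂ) * t * u k)‖
      ≤ 1 := by
    rw [← norm_mul, hF', norm_prod]
    refine Finset.prod_le_one (fun _ _ => norm_nonneg _) fun j _ => ?_
    rw [norm_neg]; exact hz j
  have e6 : (∏ k, ‖u k‖) * ‖∏ k, ((a : ℂ) - w k)‖ = 1 := by
    rw [norm_prod, ← Finset.prod_mul_distrib]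
    refine Finset.prod_eq_one fun k _ => ?_
    rw [hu k, norm_inv, inv_mul_cancel₀ (norm_ne_zero_iff.2 (hL k))]
  have hpos : 0 ≤ ∏ k, ‖u k‖ := Finset.prod_nonneg fun _ _ => norm_nonneg _
  calc ‖(m + 1 : ℂ) * ∫ t in (0:ℝ)..1, ∏ k, (1 - (a : ℂ) * t * u k)‖
      = (∏ k, ‖u k‖) * (‖∏ k, ((a : ℂ) - w k)‖ *
          ‖(m + 1 : ℂ) * ∫ t in (0:ℝ)..1, ∏ k, (1 - (a : ℂ) * t * u k)‖) := by
        rw [← mul_assoc, e6, one_mul]
    _ ≤ (∏ k, ‖u k‖) * 1 := mul_le_mul_of_nonneg_left e5 hpos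
    _ = _ := mul_one _

/-- the algebraic identity behind the variance identity -/
lemma alg_ident {m : ℕ} (u : Fin m → ℂ) (x s : ℂ) :
    (1 - x * s) * ∑ k, u k * ∏ j ∈ Finset.univ.erase k, (1 - x * u j) =
      s * m * ∏ k, (1 - x * u k) +
        ∑ k, (u k - s) * ∏ j ∈ Finset.univ.erase k, (1 - x * u j) := by
  have h1 : ∀ k, ∏ j, (1 - x * u j) =
      (1 - x * u k) * ∏ j ∈ Finset.univ.erase k, (1 - x * u j) := fun k =>
    (Finset.mul_prod_erase Finset.univ _ (Finset.mem_univ k)).symm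
  have h2 : (m : ℂ) * ∏ j, (1 - x * u j) =
      ∑ k, (1 - x * u k) * ∏ j ∈ Finset.univ.erase k, (1 - x * u j) := by
    rw [← Finset.sum_congr rfl fun k _ => h1 k]
    simp
  rw [mul_assoc, h2, Finset.mul_sum, Finset.mul_sum, ← Finset.sum_add_distrib]
  refine Finset.sum_congr rfl fun k _ => ?_
  ring

/-- the variance identity -/
lemma var_ident {m : ℕ} (a : ℝ) (u : Fin m → ℂ) (s : ℂ) :
    (a : ℂ) * s * ((m + 1 : ℂ) * ∫ t in (0:ℝ)..1, ∏ k, (1 - (a : ℂ) * t * u k)) =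
      1 - (1 - a * s) * ∏ k, (1 - (a : ℂ) * u k) -
        ∫ t in (0:ℝ)..1, (a : ℂ) * ∑ k, (u k - s) *
          ∏ j ∈ Finset.univ.erase k, (1 - (a : ℂ) * t * u j) := by
  have hlin : ∀ (c : ℂ) (t : ℝ), HasDerivAt (fun t : ℝ => 1 - (a : ℂ) * t * c) (-(a * c)) t := by
    intro c t
    have h := (((Complex.ofRealCLM.hasDerivAt (x := t)).const_mul (a : ℂ)).mul_const c).const_sub 1
    simpa using h
  have hd : ∀ t ∈ Set.uIcc (0:ℝ) 1, HasDerivAt
      (fun t : ℝ => (1 - (a : ℂ) * t * s) * ∏ k, (1 - (a : ℂ) * t * u k))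
      (-(a * s * ((m + 1 : ℂ) * ∏ k, (1 - (a : ℂ) * t * u k)) +
        a * ∑ k, (u k - s) * ∏ j ∈ Finset.univ.erase k, (1 - (a : ℂ) * t * u j))) t := by
    intro t _
    have h1 := HasDerivAt.fun_finsetProd (u := (Finset.univ : Finset (Fin m)))
      (f := fun k (t : ℝ) => 1 - (a : ℂ) * t * u k) (f' := fun k => -(a * u k)) (x := t)
      (fun k _ => hlin (u k) t)
    have h2 := (hlin s t).mul h1
    refine h2.congr_deriv ?_
    have h3 := alg_ident u ((a : ℂ) * t) s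
    simp only [smul_eq_mul]
    have h4 : ∑ x, (∏ j ∈ Finset.univ.erase x, (1 - (a : ℂ) * t * u j)) * -((a : ℂ) * u x) =
        -(a * ∑ k, u k * ∏ j ∈ Finset.univ.erase k, (1 - (a : ℂ) * t * u j)) := by
      rw [Finset.mul_sum, ← Finset.sum_neg_distrib]
      refine Finset.sum_congr rfl fun k _ => ?_
      ring
    rw [h4]
    linear_combination (-(a : ℂ)) * h3
  have hint : IntervalIntegrable
      (fun t : ℝ => -(a * s * ((m + 1 : ℂ) * ∏ k, (1 - (a : ℂ) * t * u k)) +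
        a * ∑ k, (u k - s) * ∏ j ∈ Finset.univ.erase k, (1 - (a : ℂ) * t * u j)))
      volume 0 1 := by
    apply Continuous.intervalIntegrable
    fun_prop
  have hF := intervalIntegral.integral_eq_sub_of_hasDerivAt hd hint
  have hi1 : IntervalIntegrable
      (fun t : ℝ => a * s * ((m + 1 : ℂ) * ∏ k, (1 - (a : ℂ) * t * u k))) volume 0 1 := by
    apply Continuous.intervalIntegrable
    fun_prop
  have hi2 : IntervalIntegrable
      (fun t : ℝ => (a : ℂ) * ∑ k, (u k - s) *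
        ∏ j ∈ Finset.univ.erase k, (1 - (a : ℂ) * t * u j)) volume 0 1 := by
    apply Continuous.intervalIntegrable
    fun_prop
  rw [intervalIntegral.integral_neg, intervalIntegral.integral_add hi1 hi2,
    intervalIntegral.integral_const_mul, intervalIntegral.integral_const_mul] at hF
  simp only [Complex.ofReal_one, mul_one, Complex.ofReal_zero, mul_zero, zero_mul, sub_zero,
    Finset.prod_const_one] at hF
  linear_combination -hF

end Pool.Agent.W470.Sen
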