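import Pool.Agent.W470.Sen.Defs

set_option autoImplicit false

/-!
# Bounds for `∫₀¹ t (√g)^(m-2) dt`
-/

open MeasureTheory

namespace Pool.Agent.W470.Sen

lemma g_nonneg {a D t : ℝ} (hD : D ≤ a * (2 - a)) (ht : 0 ≤ t) : 0 ≤ g a D t := by
  have : (1 - a * t) ^ 2 ≤ g a D t := by
    unfold g
    nlinarith [mul_le_mul_of_nonneg_right hD ht]
  exact (sq_nonneg _).trans this

/-- `∫₀^τ t (1 - k t)^p dt ≤ 1 / (k² (p+1) (p+2))` -/
lemma head_int {p k τ : ℝ} (hp : 0 ≤ p) (hk : 0 < k) (hτ : 0 ≤ τ) (hkτ : k * τ ≤ 1) :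
    ∫ t in (0:ℝ)..τ, t * (1 - k * t) ^ p ≤ 1 / (k ^ 2 * ((p + 1) * (p + 2))) := by
  have hc : (k ^ 2 * ((p + 1) * (p + 2))) ≠ 0 := by positivity
  have hd : ∀ t ∈ Set.uIcc (0:ℝ) τ, HasDerivAt
      (fun t : ℝ => -((1 - k * t) ^ (p + 1) * (1 + (p + 1) * k * t)) /
        (k ^ 2 * ((p + 1) * (p + 2)))) (t * (1 - k * t) ^ p) t := by
    intro t ht
    rw [Set.uIcc_of_le hτ] at ht
    have hs : 0 ≤ 1 - k * t := by nlinarith [ht.2]
    have h1 : HasDerivAt (fun t : ℝ => 1 - k * t) (-k) t := by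
      simpa using ((hasDerivAt_id t).const_mul k).const_sub 1
    have h2 := h1.rpow_const (p := p + 1) (Or.inr (by linarith))
    have h3 : HasDerivAt (fun t : ℝ => 1 + (p + 1) * k * t) ((p + 1) * k) t := by
      simpa using ((hasDerivAt_id t).const_mul ((p + 1) * k)).const_add 1
    have h4 := ((h2.mul h3).neg).div_const (k ^ 2 * ((p + 1) * (p + 2)))
    refine h4.congr_deriv ?_
    have h5 : (1 - k * t) ^ (p + 1) = (1 - k * t) ^ p * (1 - k * t) :=
      Real.rpow_add_one' hs (by linarith)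
    rw [add_sub_cancel_right, h5]
    field_simp
    ring
  have hi : IntervalIntegrable (fun t : ℝ => t * (1 - k * t) ^ p) volume 0 τ := by
    apply Continuous.intervalIntegrable
    refine continuous_id.mul ?_
    exact Continuous.rpow_const (by fun_prop) (fun x => Or.inr hp)
  rw [intervalIntegral.integral_eq_sub_of_hasDerivAt hd hi]
  have hs : 0 ≤ 1 - k * τ := by linarith
  have h6 : 0 ≤ (1 - k * τ) ^ (p + 1) * (1 + (p + 1) * k * τ) := by positivity
  rw [mul_zero, mul_zero, sub_zero, Real.one_rpow, add_zero, mul_one]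
  rw [← sub_nonneg]
  have : 1 / (k ^ 2 * ((p + 1) * (p + 2))) - (-((1 - k * τ) ^ (p + 1) * (1 + (p + 1) * k * τ)) /
        (k ^ 2 * ((p + 1) * (p + 2))) - -1 / (k ^ 2 * ((p + 1) * (p + 2)))) =
      ((1 - k * τ) ^ (p + 1) * (1 + (p + 1) * k * τ)) / (k ^ 2 * ((p + 1) * (p + 2))) := by ring
  rw [this]
  positivity

lemma sqrt_pow_eq_rpow {x : ℝ} (hx : 0 ≤ x) (q : ℕ) :
    (Real.sqrt x) ^ q = x ^ ((q : ℝ) / 2) := by
  rw [Real.sqrt_eq_rpow, ← Real.rpow_natCast, ← Real.rpow_mul hx]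
  congr 1
  ring

/-- general split bound -/
lemma J_le {m : ℕ} (hm : 2 ≤ m) {a D τ : ℝ} (ha0 : 0 < a) (hD0 : 0 < D)
    (hD : D ≤ a * (2 - a)) (hτ0 : 0 < τ) (hτ1 : τ ≤ 1) :
    ∫ t in (0:ℝ)..1, t * (Real.sqrt (g a D t)) ^ (m - 2) ≤
      4 / (m * (m + 2) * (D + (1 - τ) * a ^ 2) ^ 2)
        + (1 - τ ^ 2) / 2 *
          (Real.sqrt (max (1 - τ * (D + (1 - τ) * a ^ 2)) (1 - D))) ^ (m - 2) := by
  set k : ℝ := D + (1 - τ) * a ^ 2 with hk
  have hk0 : 0 < k := by
    have : 0 ≤ (1 - τ) * a ^ 2 := mul_nonneg (by linarith) (sq_nonneg a)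
    linarith
  have hgc : Continuous fun t : ℝ => t * (Real.sqrt (g a D t)) ^ (m - 2) := by
    unfold g; fun_prop
  have hsplit := intervalIntegral.integral_add_adjacent_intervals
    (hgc.intervalIntegrable 0 τ) (hgc.intervalIntegrable τ 1) (μ := volume)
  rw [← hsplit]
  have hgτ : g a D τ = 1 - τ * k := by rw [g, hk]; ring
  have hkτ : k * τ ≤ 1 := by
    have := g_nonneg (t := τ) hD hτ0.le
    rw [hgτ] at this
    linarith
  refine add_le_add ?_ ?_
  · -- head
    have h1 : ∀ t ∈ Set.Icc (0:ℝ) τ, t * (Real.sqrt (g a D t)) ^ (m - 2) ≤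
        t * (1 - k * t) ^ ((((m - 2 : ℕ) : ℝ)) / 2) := by
      intro t ht
      refine mul_le_mul_of_nonneg_left ?_ ht.1
      have hs : 0 ≤ 1 - k * t := by nlinarith [ht.2]
      rw [← sqrt_pow_eq_rpow hs]
      refine pow_le_pow_left₀ (Real.sqrt_nonneg _) (Real.sqrt_le_sqrt ?_) _
      rw [g, hk]
      nlinarith [mul_nonneg (mul_nonneg (sq_nonneg a) ht.1) (sub_nonneg.2 ht.2)]
    have hi : IntervalIntegrable (fun t : ℝ => t * (1 - k * t) ^ ((((m - 2 : ℕ) : ℝ)) / 2))
        volume 0 τ := by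
      apply Continuous.intervalIntegrable
      refine continuous_id.mul ?_
      exact Continuous.rpow_const (by fun_prop) (fun x => Or.inr (by positivity))
    refine (intervalIntegral.integral_mono_on hτ0.le (hgc.intervalIntegrable 0 τ) hi h1).trans ?_
    refine (head_int (by positivity) hk0 hτ0.le hkτ).trans (le_of_eq ?_)
    have hm' : ((m - 2 : ℕ) : ℝ) = (m : ℝ) - 2 := by
      rw [Nat.cast_sub hm]; norm_num
    rw [hm']
    have : (0:ℝ) < m := by exact_mod_cast (by omega : 0 < m)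
    have h7 : (((m : ℝ) - 2) / 2 + 1) * (((m : ℝ) - 2) / 2 + 2) = m * (m + 2) / 4 := by ring
    rw [h7, div_eq_div_iff (by positivity) (by positivity)]
    ring
  · -- tail
    set G : ℝ := max (1 - τ * k) (1 - D) with hG
    have h1 : ∀ t ∈ Set.Icc τ 1, t * (Real.sqrt (g a D t)) ^ (m - 2) ≤
        t * (Real.sqrt G) ^ (m - 2) := by
      intro t ht
      have ht0 : 0 ≤ t := hτ0.le.trans ht.1
      refine mul_le_mul_of_nonneg_left ?_ ht0
      refine pow_le_pow_left₀ (Real.sqrt_nonneg _) (Real.sqrt_le_sqrt ?_) _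
      rcases hτ1.eq_or_lt with h | h
      · have : t = 1 := le_antisymm ht.2 (by rw [← h]; exact ht.1)
        rw [this, g]
        refine le_trans (le_of_eq ?_) (le_max_right _ _)
        ring
      · -- convexity
        have h2 : (1 - τ) * g a D t ≤ (1 - t) * (1 - τ * k) + (t - τ) * (1 - D) := by
          rw [g, hk]
          nlinarith [mul_nonneg (mul_nonneg (sub_nonneg.2 ht.1) (sub_nonneg.2 ht.2))
            (mul_nonneg (sub_nonneg.2 hτ1) (sq_nonneg a))]
        have h3 : (1 - t) * (1 - τ * k) + (t - τ) * (1 - D) ≤ (1 - t) * G + (t - τ) * G :=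
          add_le_add (mul_le_mul_of_nonneg_left (le_max_left _ _) (by linarith [ht.2]))
            (mul_le_mul_of_nonneg_left (le_max_right _ _) (by linarith [ht.1]))
        have h4 : (1 - τ) * g a D t ≤ (1 - τ) * G := by
          refine h2.trans (h3.trans (le_of_eq ?_)); ring
        exact le_of_mul_le_mul_left h4 (by linarith)
    have hi : IntervalIntegrable (fun t : ℝ => t * (Real.sqrt G) ^ (m - 2)) volume τ 1 := by
      apply Continuous.intervalIntegrable; fun_prop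
    refine (intervalIntegral.integral_mono_on hτ1 (hgc.intervalIntegrable τ 1) hi h1).trans
      (le_of_eq ?_)
    rw [intervalIntegral.integral_mul_const, integral_id]
    ring

theorem stJ : StJ := by
  intro m hm a D ha0 _ hD0 hD
  have h := J_le (m := m) (by omega) (τ := 3 / 5) ha0 hD0 hD (by norm_num) (by norm_num)
  have e1 : (1 : ℝ) - 3 / 5 = 2 / 5 := by norm_num
  have e2 : (1 - (3 / 5 : ℝ) ^ 2) / 2 = 8 / 25 := by norm_num
  rw [e1, e2] at h
  exact h

end Pool.Agent.W470.Sen
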