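import Pool.Agent.W470.Sen.StarBeta
import Pool.Agent.W470.Sen.JBound

set_option autoImplicit false

/-!
# The real inequality (T3): the star test forces the error terms below the slack
-/

open MeasureTheory

namespace Pool.Agent.W470.Sen

lemma phi_one {a r : ℝ} (ha0 : 0 < a) (ha1 : a < 1) (hr1 : r ≤ 1) :
    a ^ 2 * (1 - r ^ 2) / (1 - a * r) ≤ 2 * (1 - Real.sqrt (1 - a ^ 2)) := by
  have h1 : 0 < 1 - a * r := by nlinarith
  have hB : 0 ≤ 1 - a ^ 2 := by nlinarith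
  rw [div_le_iff₀ h1]
  have h2 := Real.sq_sqrt hB
  set b := Real.sqrt (1 - a ^ 2) with hb
  nlinarith [sq_nonneg (1 - b - a * r)]

lemma phi_two {a r D : ℝ} (ha0 : 0 < a) (ha1 : a < 1) (hr1 : r ≤ 1)
    (hr : (a ^ 2 + D) / 2 ≤ a * r) (hD : D ≤ a * (2 - a)) :
    a ^ 2 * (1 - r ^ 2) / (1 - a * r) * (2 - a ^ 2 - D) ≤ 2 * a * (2 * a - a ^ 2 - D) := by
  have h1 : 0 < 1 - a * r := by nlinarith
  have h3 : 0 ≤ 2 * a - a ^ 2 - D := by linarith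
  have h4 : 0 < 2 - a ^ 2 - D := by nlinarith
  rw [div_mul_eq_mul_div, div_le_iff₀ h1]
  -- (a² - c²)(2 - a² - D) ≤ 2 a (2a - a² - D) (1 - c), c = a r
  set c := a * r with hc
  have hca : c ≤ a := by rw [hc]; nlinarith
  have e1 : a ^ 2 * (1 - r ^ 2) = (a - c) * (a + c) := by rw [hc]; ring
  rw [e1]
  have h5 : (a - c) * (a + c) * (2 - a ^ 2 - D) ≤ (a - c) * (2 * a) * (2 - a ^ 2 - D) := by
    refine mul_le_mul_of_nonneg_right (mul_le_mul_of_nonneg_left (by linarith) (by linarith)) h4.le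
  refine h5.trans ?_
  have h6 : (a - c) * (2 - a ^ 2 - D) ≤ (2 * a - a ^ 2 - D) * (1 - c) := by
    nlinarith [mul_nonneg (sub_nonneg.2 hr) (sub_nonneg.2 ha1.le)]
  nlinarith [mul_le_mul_of_nonneg_left h6 (show (0:ℝ) ≤ 2 * a by linarith)]

/-- (T3) -/
theorem T3 (hC : StConj) (hSm : StSmall) (hLa : StLarge) {m : ℕ} (hm : 5 ≤ m) {a σ r : ℝ}
    (ha0 : 0 < a) (ha1 : a < 1) (hσ : -1 ≤ σ) (hσr : σ ≤ r) (hr1 : r ≤ 1)
    (hS : 1 ≤ ∫ t in (0:ℝ)..1, (Real.sqrt (a ^ 2 + 2 * a * (1 - a ^ 2) * σ * t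
      + (1 - a ^ 2) ^ 2 * t ^ 2)) ^ m) :
    a * r + (Real.sqrt (g a (2 * a * σ - a ^ 2) 1)) ^ (m + 1) +
      Real.sqrt (Real.exp 1) * m * (1 - r ^ 2) * a ^ 2 *
        (∫ t in (0:ℝ)..1, t * (Real.sqrt (g a (2 * a * σ - a ^ 2) t)) ^ (m - 2)) < 1 := by
  obtain ⟨β, hβ1, hβ2, hβ⟩ := star_beta (by omega) ha0 ha1 hσ (hσr.trans hr1) hS
  set D : ℝ := 2 * a * σ - a ^ 2 with hD
  have hD1 : D1 m a ≤ D := D1_le hC (by omega) ha0 ha1 hβ1 hβ2 hβ
  have hexp := exp_le ha0 hβ1 hβ2 hβ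
  have hDa : D ≤ a * (2 - a) := by rw [hD]; nlinarith [hσr.trans hr1]
  have hD1pos : 0 < D1 m a := by
    unfold D1
    have : 0 < 1 - a := by linarith
    positivity
  have hD0 : 0 < D := hD1pos.trans_le hD1
  have hDle : D ≤ 1 := by nlinarith
  have hsl : 0 < 1 - a * r := by nlinarith
  set Φ : ℝ := a ^ 2 * (1 - r ^ 2) / (1 - a * r) with hΦ
  have hΦ0 : 0 ≤ Φ := by
    rw [hΦ]
    have : 0 ≤ 1 - r ^ 2 := by nlinarith
    positivity
  have hΦ1 := phi_one ha0 ha1 hr1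
  have hΦ2 := phi_two (D := D) ha0 ha1 hr1 (by rw [hD]; nlinarith) hDa
  rw [← hΦ] at hΦ1 hΦ2
  have hg1 : g a D 1 = 1 - D := by unfold g; ring
  rw [hg1]
  -- key
  have key : Real.sqrt (Real.exp 1) * Φ *
        (m * ∫ t in (0:ℝ)..1, t * (Real.sqrt (g a D t)) ^ (m - 2))
      + (Real.sqrt (1 - D)) ^ (m + 1) / (1 - a) < 1 := by
    rcases Nat.lt_or_ge m 80 with h80 | h80
    · have h1 := hSm m hm (by omega) a D Φ ha0 ha1 hD1 hDle hΦ0 hΦ1 hΦ2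
      refine lt_of_le_of_lt (add_le_add_left ?_ _) h1
      refine mul_le_mul_of_nonneg_left ?_ (mul_nonneg (Real.sqrt_nonneg _) hΦ0)
      have h2 := stJ m (by omega) a D ha0 ha1 hD0 hDa
      have hm0 : (0:ℝ) < m := by exact_mod_cast (by omega : 0 < m)
      refine (mul_le_mul_of_nonneg_left h2 hm0.le).trans (le_of_eq ?_)
      have hk : 0 < D + 2 / 5 * a ^ 2 := by positivity
      field_simp
    · exact hLa m h80 a D Φ ha0 ha1 hD1 hDa (by exact_mod_cast hexp) hΦ0 hΦ1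
  have hT : (Real.sqrt (1 - D)) ^ (m + 1) / (1 - a * r) ≤
      (Real.sqrt (1 - D)) ^ (m + 1) / (1 - a) := by
    refine div_le_div_of_nonneg_left (by positivity) (by linarith) (by nlinarith)
  set J : ℝ := ∫ t in (0:ℝ)..1, t * (Real.sqrt (g a D t)) ^ (m - 2) with hJ
  have h3 : Real.sqrt (Real.exp 1) * Φ * (m * J) + (Real.sqrt (1 - D)) ^ (m + 1) / (1 - a * r)
      < 1 := by linarith
  have h4 : (Real.sqrt (Real.exp 1) * Φ * (m * J) +
      (Real.sqrt (1 - D)) ^ (m + 1) / (1 - a * r)) * (1 - a * r) =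
      (Real.sqrt (1 - D)) ^ (m + 1) +
      Real.sqrt (Real.exp 1) * m * (1 - r ^ 2) * a ^ 2 * J := by
    rw [hΦ]; field_simp; ring
  have h5 := mul_lt_mul_of_pos_right h3 hsl
  rw [h4, one_mul] at h5
  linarith

end Pool.Agent.W470.Sen
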