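import Pool.Agent.W470.Sen.PartA
import Pool.Agent.W470.Sen.Final

set_option autoImplicit false

/-!
# `∑ 1/|w_k - a|² > m` for `0 < a < 1`, `m ≥ 5`
-/

open Polynomial MeasureTheory

namespace Pool.Agent.W470.Sen

open Pool.Agent.H565.Pm

theorem main_gt (hVar : StVar) (hC : StConj) (hSm : StSmall) (hLa : StLarge)
    {m : ℕ} (hm : 5 ≤ m) {a : ℝ} (ha0 : 0 < a) (ha1 : a < 1)
    (z w : Fin m → ℂ) (hz : ∀ j, ‖z j‖ ≤ 1)
    (hw : ∀ x : ℂ, (derivative (P a z)).eval x = (m + 1 : ℂ) * ∏ k, (x - w k))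
    (hne : ∀ k, w k ≠ a) :
    (m : ℝ) < ∑ k, (‖w k - (a : ℂ)‖ ^ 2)⁻¹ := by
  by_contra hcon
  rw [not_lt] at hcon
  have hm0 : 0 < m := by omega
  have hm' : (0 : ℝ) < m := by exact_mod_cast hm0
  set u : Fin m → ℂ := fun k => ((a : ℂ) - w k)⁻¹ with hu
  have hu2 : ∀ k, ‖u k‖ ^ 2 = (‖w k - (a : ℂ)‖ ^ 2)⁻¹ := by
    intro k
    rw [hu]
    simp only [norm_inv, inv_pow]
    rw [norm_sub_rev]
  have hU : (∑ k, ‖u k‖ ^ 2) / m ≤ 1 := by
    rw [div_le_one hm']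
    simpa only [hu2] using hcon
  set s : ℂ := (∑ k, u k) / m with hs
  have hS := star hm0 ha0.le ha1 z w hz hw hne u (fun k => rfl) hU
  rw [← hs] at hS
  have hA := partA hVar (by omega) ha0 z w hz hw hne u (fun k => rfl) hU s hs
  -- ‖s‖ ≤ 1
  have hs1 : ‖s‖ ^ 2 ≤ 1 := by
    have h1 : ‖s‖ ≤ (∑ k, ‖u k‖) / m := by
      rw [hs, norm_div, Complex.norm_natCast]
      exact div_le_div_of_nonneg_right (norm_sum_le _ _) hm'.le
    have h2 : (∑ k, ‖u k‖) ^ 2 ≤ m * ∑ k, ‖u k‖ ^ 2 := by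
      have := sq_sum_le_card_mul_sum_sq (s := (Finset.univ : Finset (Fin m)))
        (f := fun k => ‖u k‖)
      simpa using this
    calc ‖s‖ ^ 2 ≤ ((∑ k, ‖u k‖) / m) ^ 2 := pow_le_pow_left₀ (norm_nonneg _) h1 2
      _ = (∑ k, ‖u k‖) ^ 2 / m ^ 2 := by rw [div_pow]
      _ ≤ (m * ∑ k, ‖u k‖ ^ 2) / m ^ 2 := div_le_div_of_nonneg_right h2 (by positivity)
      _ = (∑ k, ‖u k‖ ^ 2) / m := by field_simp
      _ ≤ 1 := hU
  have hs1' : ‖s‖ ≤ 1 := by nlinarith [norm_nonneg s]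
  have hre := abs_le.1 (Complex.abs_re_le_norm s)
  have hT := T3 hC hSm hLa hm ha0 ha1 (σ := s.re) (r := ‖s‖) (by linarith [hre.1])
    hre.2 hs1' hS
  linarith

/-- the statement for all degrees -/
theorem all_degrees (hVar : StVar) (hC : StConj) (hSm : StSmall) (hLa : StLarge) :
    ∀ (m : ℕ), 1 ≤ m → ∀ (a : ℝ), 0 ≤ a → a ≤ 1 → ∀ z : Fin m → ℂ, (∀ j, ‖z j‖ ≤ 1) →
      ((a : ℂ) ∈ (derivative ((X - C (a : ℂ)) * ∏ j, (X - C (z j)))).roots) ∨
      ((m : ℝ) ≤ (((derivative ((X - C (a : ℂ)) * ∏ j, (X - C (z j)))).roots).map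
          (fun w : ℂ => (‖w - (a : ℂ)‖ ^ 2)⁻¹)).sum ∧
       (a < 1 → (m : ℝ) < (((derivative ((X - C (a : ℂ)) * ∏ j, (X - C (z j)))).roots).map
          (fun w : ℂ => (‖w - (a : ℂ)‖ ^ 2)⁻¹)).sum)) := by
  intro m hm a ha0 ha1 z hz
  obtain ⟨w, hr, hw⟩ := exists_w a z
  have hr' := hr
  unfold P at hr
  rw [hr]
  by_cases hmem : (a : ℂ) ∈ Multiset.map w Finset.univ.val
  · exact Or.inl hmem
  right
  have hne : ∀ k, w k ≠ a := fun k hk => hmem (Multiset.mem_map.2 ⟨k, Finset.mem_univ k, hk⟩)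
  simp only [Multiset.map_map, Function.comp_def]
  change (m : ℝ) ≤ ∑ k, (‖w k - (a : ℂ)‖ ^ 2)⁻¹ ∧
    (a < 1 → (m : ℝ) < ∑ k, (‖w k - (a : ℂ)‖ ^ 2)⁻¹)
  have hlt : a < 1 → (m : ℝ) < ∑ k, (‖w k - (a : ℂ)‖ ^ 2)⁻¹ := by
    intro ha
    rcases ha0.eq_or_lt with h0 | h0
    · -- a = 0
      have h1 := lt_one_case (by omega) ha0 ha z w hz hw hne (by
        subst h0
        have : (1 : ℝ) ≤ m := by exact_mod_cast hm
        norm_num
        linarith)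
      have h2 := to_sq_lt (by omega) _ h1
      simpa only [inv_pow] using h2
    · rcases Nat.lt_or_ge m 5 with h5 | h5
      · have h1 := lt_one_case (by omega) ha0 ha z w hz hw hne
          (cond_small hm (by omega) ha0 ha)
        have h2 := to_sq_lt (by omega) _ h1
        simpa only [inv_pow] using h2
      · exact main_gt hVar hC hSm hLa h5 h0 ha z w hz hw hne
  refine ⟨?_, hlt⟩
  rcases ha1.lt_or_eq with ha | ha
  · exact (hlt ha).le
  · subst ha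
    have h1 := one_case z w hz hr' hw hne
    have h2 := to_sq_le (by omega) _ h1
    simpa only [inv_pow] using h2

end Pool.Agent.W470.Sen
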