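import Pool.Agent.W470.Sen.Centre

set_option autoImplicit false

/-!
# The polynomial part: the inequality that `U ≤ 1` would force
-/

open Polynomial MeasureTheory

namespace Pool.Agent.W470.Sen

open Pool.Agent.H565.Pm

lemma partA (hVar : StVar) {m : ℕ} (hm : 2 ≤ m) {a : ℝ} (ha0 : 0 < a) (z w : Fin m → ℂ)
    (hz : ∀ j, ‖z j‖ ≤ 1)
    (hw : ∀ x : ℂ, (derivative (P a z)).eval x = (m + 1 : ℂ) * ∏ k, (x - w k))
    (hne : ∀ k, w k ≠ a) (u : Fin m → ℂ) (hu : ∀ k, u k = ((a : ℂ) - w k)⁻¹)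
    (hU : (∑ k, ‖u k‖ ^ 2) / m ≤ 1) (s : ℂ) (hs : s = (∑ k, u k) / m) :
    1 ≤ a * ‖s‖ + (Real.sqrt (g a (2 * a * s.re - a ^ 2) 1)) ^ (m + 1) +
      Real.sqrt (Real.exp 1) * m * (1 - ‖s‖ ^ 2) * a ^ 2 *
        ∫ t in (0:ℝ)..1, t * (Real.sqrt (g a (2 * a * s.re - a ^ 2) t)) ^ (m - 2) := by
  have hm0 : 0 < m := by omega
  have hm' : (0 : ℝ) < m := by exact_mod_cast hm0
  have hmc : (m : ℂ) ≠ 0 := by exact_mod_cast hm0.ne'
  set U : ℝ := (∑ k, ‖u k‖ ^ 2) / m with hUdef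
  set D : ℝ := 2 * a * s.re - a ^ 2 with hD
  -- ‖s‖ ≤ 1
  have hsU : ‖s‖ ^ 2 ≤ U := by
    have h1 : ‖s‖ ≤ (∑ k, ‖u k‖) / m := by
      rw [hs, norm_div, Complex.norm_natCast]
      exact div_le_div_of_nonneg_right (norm_sum_le _ _) hm'.le
    have h2 : (∑ k, ‖u k‖) ^ 2 ≤ m * ∑ k, ‖u k‖ ^ 2 := by
      have := sq_sum_le_card_mul_sum_sq (s := (Finset.univ : Finset (Fin m)))
        (f := fun k => ‖u k‖)
      simpa using this
    calc ‖s‖ ^ 2 ≤ ((∑ k, ‖u k‖) / m) ^ 2 := pow_le_pow_left₀ (norm_nonneg _) h1 2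
      _ = (∑ k, ‖u k‖) ^ 2 / m ^ 2 := by rw [div_pow]
      _ ≤ (m * ∑ k, ‖u k‖ ^ 2) / m ^ 2 := div_le_div_of_nonneg_right h2 (by positivity)
      _ = U := by rw [hUdef]; field_simp
  have hs1 : ‖s‖ ^ 2 ≤ 1 := hsU.trans hU
  have hs1' : ‖s‖ ≤ 1 := by nlinarith [norm_nonneg s]
  have hre : s.re ^ 2 + s.im ^ 2 = ‖s‖ ^ 2 := by
    rw [Complex.sq_norm, Complex.normSq_apply]; ring
  -- mean square
  have hQ : ∀ t : ℝ, (∑ k, ‖1 - (a : ℂ) * t * u k‖ ^ 2) / m =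
      1 - 2 * a * t * s.re + a ^ 2 * t ^ 2 * U := by
    intro t
    have h := mean_sq hm0 u 1 (-(a * t))
    rw [← hs] at h
    have h1 : ∀ k, ‖((1:ℝ) : ℂ) + ((-(a * t) : ℝ) : ℂ) * u k‖ = ‖1 - (a : ℂ) * t * u k‖ := by
      intro k; congr 1; push_cast; ring
    simp_rw [h1] at h
    rw [h, ← hUdef]; ring
  have hQg : ∀ t : ℝ, (∑ k, ‖1 - (a : ℂ) * t * u k‖ ^ 2) / m ≤ g a D t := by
    intro t
    rw [hQ t, g, hD]
    nlinarith [mul_le_mul_of_nonneg_left hU (mul_nonneg (sq_nonneg a) (sq_nonneg t))]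
  have hmean : ∀ t : ℝ, (∑ k, (1 - (a : ℂ) * t * u k)) / m = 1 - a * t * s := by
    intro t
    rw [Finset.sum_sub_distrib, ← Finset.mul_sum]
    simp only [Finset.sum_const, Finset.card_univ, Fintype.card_fin, nsmul_eq_mul, mul_one]
    rw [hs]; field_simp
  have hn2 : ∀ t : ℝ, ‖1 - (a : ℂ) * t * s‖ ^ 2 = 1 - 2 * a * t * s.re + a ^ 2 * t ^ 2 * ‖s‖ ^ 2 := by
    intro t
    rw [Complex.sq_norm, Complex.normSq_apply, ← hre]
    simp
    ring
  -- integrand bound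
  have hb : ∀ t ∈ Set.Icc (0:ℝ) 1, ‖(a : ℂ) * ∑ k, (u k - s) *
      ∏ j ∈ Finset.univ.erase k, (1 - (a : ℂ) * t * u j)‖ ≤
      Real.sqrt (Real.exp 1) * m * (1 - ‖s‖ ^ 2) * a ^ 2 *
        (t * (Real.sqrt (g a D t)) ^ (m - 2)) := by
    intro t ht
    rcases ht.1.eq_or_lt with h0 | h0
    · subst h0
      simp only [Complex.ofReal_zero, mul_zero, zero_mul, sub_zero, Finset.prod_const_one,
        mul_one]
      have : ∑ k, (u k - s) = 0 := by
        rw [Finset.sum_sub_distrib]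
        simp only [Finset.sum_const, Finset.card_univ, Fintype.card_fin, nsmul_eq_mul]
        rw [hs]; field_simp; ring
      rw [this, mul_zero, norm_zero]
    · have h := hVar m hm (fun k => 1 - (a : ℂ) * t * u k)
      simp only [hmean, hQ, hn2] at h
      have e1 : ∑ k, (1 - (a : ℂ) * t * u k - (1 - a * t * s)) *
          ∏ j ∈ Finset.univ.erase k, (1 - (a : ℂ) * t * u j) =
          (-(t : ℂ)) * ((a : ℂ) * ∑ k, (u k - s) *
            ∏ j ∈ Finset.univ.erase k, (1 - (a : ℂ) * t * u j)) := by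
        rw [Finset.mul_sum, Finset.mul_sum]
        refine Finset.sum_congr rfl fun k _ => ?_
        ring
      rw [e1, norm_mul, norm_neg, Complex.norm_real, Real.norm_eq_abs, abs_of_pos h0] at h
      have e2 : Real.sqrt (Real.exp 1) * m *
          (1 - 2 * a * t * s.re + a ^ 2 * t ^ 2 * U -
            (1 - 2 * a * t * s.re + a ^ 2 * t ^ 2 * ‖s‖ ^ 2)) *
          (Real.sqrt (1 - 2 * a * t * s.re + a ^ 2 * t ^ 2 * U)) ^ (m - 2) ≤
          t * (Real.sqrt (Real.exp 1) * m * (1 - ‖s‖ ^ 2) * a ^ 2 *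
            (t * (Real.sqrt (g a D t)) ^ (m - 2))) := by
        have e3 : (Real.sqrt (1 - 2 * a * t * s.re + a ^ 2 * t ^ 2 * U)) ^ (m - 2) ≤
            (Real.sqrt (g a D t)) ^ (m - 2) := by
          refine pow_le_pow_left₀ (Real.sqrt_nonneg _) (Real.sqrt_le_sqrt ?_) _
          rw [← hQ t]; exact hQg t
        have e4 : Real.sqrt (Real.exp 1) * m *
          (1 - 2 * a * t * s.re + a ^ 2 * t ^ 2 * U -
            (1 - 2 * a * t * s.re + a ^ 2 * t ^ 2 * ‖s‖ ^ 2)) =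
            Real.sqrt (Real.exp 1) * m * (a ^ 2 * t ^ 2 * (U - ‖s‖ ^ 2)) := by ring
        have e5 : Real.sqrt (Real.exp 1) * m * (a ^ 2 * t ^ 2 * (U - ‖s‖ ^ 2)) ≤
            Real.sqrt (Real.exp 1) * m * (a ^ 2 * t ^ 2 * (1 - ‖s‖ ^ 2)) := by
          refine mul_le_mul_of_nonneg_left ?_ (by positivity)
          exact mul_le_mul_of_nonneg_left (by linarith) (by positivity)
        have e6 : 0 ≤ Real.sqrt (Real.exp 1) * m * (a ^ 2 * t ^ 2 * (U - ‖s‖ ^ 2)) := by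
          refine mul_nonneg (by positivity) (mul_nonneg (by positivity) (by linarith))
        rw [e4]
        calc _ ≤ Real.sqrt (Real.exp 1) * m * (a ^ 2 * t ^ 2 * (1 - ‖s‖ ^ 2)) *
              (Real.sqrt (g a D t)) ^ (m - 2) :=
              mul_le_mul e5 e3 (by positivity) (e6.trans e5)
          _ = _ := by ring
      exact le_of_mul_le_mul_left (h.trans e2) h0
  -- integral bound
  have hI : ‖∫ t in (0:ℝ)..1, (a : ℂ) * ∑ k, (u k - s) *
      ∏ j ∈ Finset.univ.erase k, (1 - (a : ℂ) * t * u j)‖ ≤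
      Real.sqrt (Real.exp 1) * m * (1 - ‖s‖ ^ 2) * a ^ 2 *
        ∫ t in (0:ℝ)..1, t * (Real.sqrt (g a D t)) ^ (m - 2) := by
    refine (intervalIntegral.norm_integral_le_integral_norm zero_le_one).trans ?_
    rw [← intervalIntegral.integral_const_mul]
    refine intervalIntegral.integral_mono_on zero_le_one ?_ ?_ hb
    · apply Continuous.intervalIntegrable
      fun_prop
    · apply Continuous.intervalIntegrable
      unfold g
      fun_prop
  -- main identity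
  have hid := var_ident a u s
  have hc := centre ha0 z w hz hw hne u hu
  have hprod : ∏ k, ‖u k‖ ≤ 1 := by
    refine (prod_norm_le hm0 u).trans (pow_le_one₀ (Real.sqrt_nonneg _) ?_)
    rw [← hUdef]
    exact Real.sqrt_le_one.2 hU
  have hP1 : ‖∏ k, (1 - (a : ℂ) * u k)‖ ≤ (Real.sqrt (g a D 1)) ^ m := by
    rw [norm_prod]
    refine (prod_norm_le hm0 _).trans (pow_le_pow_left₀ (Real.sqrt_nonneg _) (Real.sqrt_le_sqrt ?_) m)
    have := hQg 1
    simpa using this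
  have h1s : ‖1 - (a : ℂ) * s‖ ≤ Real.sqrt (g a D 1) := by
    refine Real.le_sqrt_of_sq_le ?_
    have := hn2 1
    simp only [Complex.ofReal_one, mul_one, one_pow] at this
    rw [this, g, hD]
    nlinarith [mul_le_mul_of_nonneg_left hs1 (sq_nonneg a)]
  have hT1 : ‖(1 - (a : ℂ) * s) * ∏ k, (1 - (a : ℂ) * u k)‖ ≤ (Real.sqrt (g a D 1)) ^ (m + 1) := by
    rw [norm_mul, pow_succ']
    exact mul_le_mul h1s hP1 (norm_nonneg _) (Real.sqrt_nonneg _)
  have hleft : ‖(a : ℂ) * s * ((m + 1 : ℂ) * ∫ t in (0:ℝ)..1, ∏ k, (1 - (a : ℂ) * t * u k))‖ ≤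
      a * ‖s‖ := by
    rw [norm_mul, norm_mul, Complex.norm_real, Real.norm_eq_abs, abs_of_pos ha0]
    calc _ ≤ a * ‖s‖ * 1 := mul_le_mul_of_nonneg_left (hc.trans hprod) (by positivity)
      _ = _ := mul_one _
  have h1 : (1 : ℂ) = (a : ℂ) * s * ((m + 1 : ℂ) *
        ∫ t in (0:ℝ)..1, ∏ k, (1 - (a : ℂ) * t * u k)) +
      (1 - (a : ℂ) * s) * ∏ k, (1 - (a : ℂ) * u k) +
      ∫ t in (0:ℝ)..1, (a : ℂ) * ∑ k, (u k - s) *
        ∏ j ∈ Finset.univ.erase k, (1 - (a : ℂ) * t * u j) := by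
    rw [hid]; ring
  have h2 := congrArg norm h1
  rw [norm_one] at h2
  refine (le_of_eq h2).trans ?_
  exact (norm_add_le _ _).trans (add_le_add ((norm_add_le _ _).trans (add_le_add hleft hT1)) hI)

end Pool.Agent.W470.Sen
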