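import Pool.Agent.W470.Sen.Defs

set_option autoImplicit false

/-!
# From the star test to lower bounds for `D`
-/

open MeasureTheory

namespace Pool.Agent.W470.Sen

/-- the star test in closed form -/
lemma star_beta {m : ℕ} (hm : 1 ≤ m) {a σ : ℝ} (ha0 : 0 < a) (ha1 : a < 1) (hσ : -1 ≤ σ)
    (hσ1 : σ ≤ 1)
    (hS : 1 ≤ ∫ t in (0:ℝ)..1, (Real.sqrt (a ^ 2 + 2 * a * (1 - a ^ 2) * σ * t
      + (1 - a ^ 2) ^ 2 * t ^ 2)) ^ m) :
    ∃ β : ℝ, 1 < β ∧ β ^ 2 = 1 + (1 - a ^ 2) * (2 * a * σ - a ^ 2) ∧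
      (m + 1) * (β - a) ≤ β ^ (m + 1) - a ^ (m + 1) := by
  have hB : 0 < 1 - a ^ 2 := by nlinarith
  set Q : ℝ := 1 + (1 - a ^ 2) * (2 * a * σ - a ^ 2) with hQ
  have hQ' : Q = (a + (1 - a ^ 2) * σ) ^ 2 + (1 - a ^ 2) ^ 2 * (1 - σ ^ 2) := by
    rw [hQ]; ring
  have hσ2 : 0 ≤ 1 - σ ^ 2 := by nlinarith
  have hQ0 : 0 ≤ Q := by rw [hQ']; positivity
  set β := Real.sqrt Q with hβ
  have hβ0 : 0 ≤ β := Real.sqrt_nonneg _
  have hβ2 : β ^ 2 = Q := Real.sq_sqrt hQ0
  have hβσ : a + (1 - a ^ 2) * σ ≤ β := by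
    refine Real.le_sqrt_of_sq_le ?_
    rw [hQ']
    have : 0 ≤ (1 - a ^ 2) ^ 2 * (1 - σ ^ 2) := by positivity
    linarith
  -- chord bound
  have hch : ∀ t ∈ Set.Icc (0:ℝ) 1, (Real.sqrt (a ^ 2 + 2 * a * (1 - a ^ 2) * σ * t
      + (1 - a ^ 2) ^ 2 * t ^ 2)) ^ m ≤ (a + (β - a) * t) ^ m := by
    intro t ht
    refine pow_le_pow_left₀ (Real.sqrt_nonneg _) ?_ m
    have h0 : 0 ≤ a + (β - a) * t := by
      have : a + (β - a) * t = a * (1 - t) + β * t := by ring
      rw [this]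
      exact add_nonneg (mul_nonneg ha0.le (by linarith [ht.2])) (mul_nonneg hβ0 ht.1)
    refine Real.sqrt_le_iff.2 ⟨h0, ?_⟩
    have h1 : (a + (β - a) * t) ^ 2 - (a ^ 2 + 2 * a * (1 - a ^ 2) * σ * t
      + (1 - a ^ 2) ^ 2 * t ^ 2) = 2 * (t * (1 - t)) * a * (β - (a + (1 - a ^ 2) * σ))
        + t ^ 2 * (β ^ 2 - Q) := by
      rw [hQ]; ring
    have h2 : 0 ≤ 2 * (t * (1 - t)) * a * (β - (a + (1 - a ^ 2) * σ)) := by
      refine mul_nonneg (mul_nonneg (mul_nonneg zero_le_two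
        (mul_nonneg ht.1 (by linarith [ht.2]))) ha0.le) (by linarith)
    rw [hβ2, sub_self, mul_zero, add_zero] at h1
    linarith
  have hint1 : IntervalIntegrable (fun t : ℝ => (Real.sqrt (a ^ 2 + 2 * a * (1 - a ^ 2) * σ * t
      + (1 - a ^ 2) ^ 2 * t ^ 2)) ^ m) volume 0 1 := by
    apply Continuous.intervalIntegrable
    fun_prop
  have hint2 : IntervalIntegrable (fun t : ℝ => (a + (β - a) * t) ^ m) volume 0 1 := by
    apply Continuous.intervalIntegrable
    fun_prop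
  have h1 : 1 ≤ ∫ t in (0:ℝ)..1, (a + (β - a) * t) ^ m :=
    hS.trans (intervalIntegral.integral_mono_on zero_le_one hint1 hint2 hch)
  -- closed form
  have h2 : (m + 1 : ℝ) * (β - a) * ∫ t in (0:ℝ)..1, (a + (β - a) * t) ^ m =
      β ^ (m + 1) - a ^ (m + 1) := by
    have hd : ∀ t ∈ Set.uIcc (0:ℝ) 1, HasDerivAt (fun t : ℝ => (a + (β - a) * t) ^ (m + 1))
        ((m + 1 : ℝ) * (β - a) * (a + (β - a) * t) ^ m) t := by
      intro t _
      have h := (((hasDerivAt_id t).const_mul (β - a)).const_add a).pow (m + 1)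
      simp only [id, Nat.add_sub_cancel, mul_one] at h
      exact h.congr_deriv (by push_cast; ring)
    have hi : IntervalIntegrable
        (fun t : ℝ => (m + 1 : ℝ) * (β - a) * (a + (β - a) * t) ^ m) volume 0 1 := by
      apply Continuous.intervalIntegrable
      fun_prop
    have := intervalIntegral.integral_eq_sub_of_hasDerivAt hd hi
    rw [intervalIntegral.integral_const_mul] at this
    rw [this]
    simp only [mul_one, mul_zero, add_zero]
    congr 2
    ring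
  -- β > 1
  have hβ1 : 1 < β := by
    by_contra hc
    rw [not_lt] at hc
    have h3 : ∀ t ∈ Set.Icc (0:ℝ) 1, (a + (β - a) * t) ^ m ≤ a + (1 - a) * t := by
      intro t ht
      have e1 : 0 ≤ a + (β - a) * t := by
        have : a + (β - a) * t = a * (1 - t) + β * t := by ring
        rw [this]
        exact add_nonneg (mul_nonneg ha0.le (by linarith [ht.2])) (mul_nonneg hβ0 ht.1)
      have e2 : a + (β - a) * t ≤ a + (1 - a) * t := by nlinarith [ht.1]
      have e3 : a + (1 - a) * t ≤ 1 := by nlinarith [ht.2]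
      have e4 : (a + (β - a) * t) ^ m ≤ (a + (β - a) * t) ^ 1 :=
        pow_le_pow_of_le_one e1 (e2.trans e3) hm
      rw [pow_one] at e4
      exact e4.trans e2
    have hint3 : IntervalIntegrable (fun t : ℝ => a + (1 - a) * t) volume 0 1 := by
      apply Continuous.intervalIntegrable
      fun_prop
    have h4 := intervalIntegral.integral_mono_on zero_le_one hint2 hint3 h3
    have h5 : ∫ t in (0:ℝ)..1, (a + (1 - a) * t) = (1 + a) / 2 := by
      rw [intervalIntegral.integral_add (by simp) (by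
        apply Continuous.intervalIntegrable; fun_prop),
        intervalIntegral.integral_const_mul, integral_id]
      simp
      ring
    rw [h5] at h4
    linarith
  refine ⟨β, hβ1, hβ2, ?_⟩
  rw [← h2]
  have h6 : 0 ≤ (m + 1 : ℝ) * (β - a) := by
    have : 0 < β - a := by linarith
    positivity
  nlinarith

/-- the explicit lower bound -/
lemma D1_le (hC : StConj) {m : ℕ} (hm : 1 ≤ m) {a D β : ℝ} (ha0 : 0 < a) (ha1 : a < 1)
    (hβ : 1 < β) (hβ2 : β ^ 2 = 1 + (1 - a ^ 2) * D)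
    (h : (m + 1) * (β - a) ≤ β ^ (m + 1) - a ^ (m + 1)) : D1 m a ≤ D := by
  have hx : 0 < β - 1 := by linarith
  have h1 := hC (m + 1) (by omega) (1 - a) (β - 1) (by linarith) (by linarith) hx (by
    have e1 : 1 - (1 - a) = a := by ring
    have e2 : 1 + (β - 1) = β := by ring
    rw [e1, e2]
    push_cast
    nlinarith)
  push_cast at h1
  have h2 : (m : ℝ) + 1 - 1 = m := by ring
  rw [h2] at h1
  set ε := 1 - a with hε
  have hε0 : 0 < ε := by linarith
  set T : ℝ := 3 + m * ε with hT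
  have hTpos : 0 < T := by positivity
  have ha : a = 1 - ε := by rw [hε]; ring
  have hx1 : 3 * ε / T ≤ β - 1 := by rw [div_le_iff₀ hTpos]; exact h1
  have hBD : (1 - a ^ 2) * D = (β - 1) * (2 + (β - 1)) := by
    have : (1 - a ^ 2) * D = β ^ 2 - 1 := by linarith
    rw [this]; ring
  have hx0 : 0 ≤ 3 * ε / T := by positivity
  have h3 : 3 * ε / T * (2 + 3 * ε / T) ≤ (1 - a ^ 2) * D := by
    rw [hBD]
    exact mul_le_mul hx1 (by linarith) (by linarith) (by linarith)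
  unfold D1
  rw [← hε, ← hT]
  have hBpos : 0 < 1 - a ^ 2 := by nlinarith
  have h4 : (1 - a ^ 2) * (3 * (6 + (2 * m + 3) * ε) / (T ^ 2 * (1 + a))) =
      3 * ε / T * (2 + 3 * ε / T) := by
    have h1a : (1 + a) ≠ 0 := by linarith
    have hT0 : T ≠ 0 := hTpos.ne'
    have hmε : (m : ℝ) * ε = T - 3 := by rw [hT]; ring
    field_simp
    have : (1 - a ^ 2) = ε * (1 + a) := by rw [hε]; ring
    rw [this]
    have h5 : (6 : ℝ) + (2 * m + 3) * ε = 6 + 2 * (m * ε) + 3 * ε := by ring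
    have h5' : (6 : ℝ) + ε * (2 * m + 3) = 6 + 2 * (m * ε) + 3 * ε := by ring
    try rw [h5]
    try rw [h5']
    rw [hmε]
    ring
  exact le_of_mul_le_mul_left (by rw [h4]; exact h3) hBpos

/-- the exponential lower bound -/
lemma exp_le {m : ℕ} {a D β : ℝ} (ha0 : 0 < a)
    (hβ : 1 < β) (hβ2 : β ^ 2 = 1 + (1 - a ^ 2) * D)
    (h : (m + 1) * (β - a) ≤ β ^ (m + 1) - a ^ (m + 1)) :
    (m + 1) * (1 - a) ≤ Real.exp ((m + 1) * (1 - a ^ 2) * D / 2) := by
  have h1 : (m + 1) * (1 - a) ≤ β ^ (m + 1) := by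
    have : (0:ℝ) ≤ a ^ (m + 1) := by positivity
    have h2 : (m + 1 : ℝ) * (1 - a) ≤ (m + 1) * (β - a) :=
      mul_le_mul_of_nonneg_left (by linarith) (by positivity)
    linarith
  refine h1.trans ?_
  have h2 : β ≤ Real.exp ((1 - a ^ 2) * D / 2) := by
    have h3 : β ^ 2 ≤ (Real.exp ((1 - a ^ 2) * D / 2)) ^ 2 := by
      rw [← Real.exp_nat_mul, hβ2]
      have := Real.add_one_le_exp ((1 - a ^ 2) * D)
      refine le_trans (by linarith) (this.trans (le_of_eq ?_))
      congr 1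
      push_cast
      ring
    exact le_of_sq_le_sq h3 (Real.exp_pos _).le
  calc β ^ (m + 1) ≤ (Real.exp ((1 - a ^ 2) * D / 2)) ^ (m + 1) :=
        pow_le_pow_left₀ (by linarith) h2 _
    _ = Real.exp ((m + 1) * (1 - a ^ 2) * D / 2) := by
        rw [← Real.exp_nat_mul]
        congr 1
        push_cast
        ring

end Pool.Agent.W470.Sen
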